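import Mathlib

open Set

namespace Pool.Agent.MP_66a317_pr.Value

/-- speed at most `v` -/
def Lip (v : ℝ) (f : ℝ → ℂ) : Prop := ∀ s t : ℝ, dist (f s) (f t) ≤ v * |s - t|

/-- capture by time `T` -/
def Cap (r T : ℝ) (σ h : ℝ → ℂ) : Prop := ∃ t, 0 ≤ t ∧ t ≤ T ∧ dist (σ t) (h t) ≤ r

theorem Lip.le {v : ℝ} {f : ℝ → ℂ} (hf : Lip v f) {s t : ℝ} (h : s ≤ t) :
    dist (f s) (f t) ≤ v * (t - s) := by
  have := hf s t
  rwa [abs_sub_comm, abs_of_nonneg (sub_nonneg.2 h)] at this

theorem Lip.of_le {v : ℝ} {f : ℝ → ℂ} (hf : ∀ s t, s ≤ t → dist (f s) (f t) ≤ v * (t - s)) :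
    Lip v f := fun s t => by
  rcases le_total s t with h | h
  · rw [abs_sub_comm, abs_of_nonneg (sub_nonneg.2 h)]
    exact hf s t h
  · rw [abs_of_nonneg (sub_nonneg.2 h), dist_comm]
    exact hf t s h

theorem Lip.glue {v : ℝ} {f g : ℝ → ℂ} (hf : Lip v f) (hg : Lip v g) (a : ℝ) (h : f a = g a) :
    Lip v fun t => if t ≤ a then f t else g t := by
  refine Lip.of_le fun s t hst => ?_
  by_cases h1 : t ≤ a
  · simp only [h1, hst.trans h1, if_true]
    exact hf.le hst
  · by_cases h2 : s ≤ a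
    · simp only [h1, h2, if_true, if_false]
      have a1 := hf.le h2
      have a2 := hg.le (not_le.1 h1).le
      rw [← h] at a2
      have a3 := dist_triangle (f s) (f a) (g t)
      linarith
    · simp only [h1, h2, if_false]
      exact hg.le hst

theorem lip_line {v : ℝ} (x u : ℂ) (a : ℝ) (hu : ‖u‖ ≤ v) :
    Lip v fun t => x + ((t - a : ℝ) : ℂ) * u := fun s t => by
  rw [dist_add_left, Complex.dist_eq, ← sub_mul, ← Complex.ofReal_sub, norm_mul,
    Complex.norm_real, Real.norm_eq_abs, sub_sub_sub_cancel_right, mul_comm]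
  gcongr

theorem lip_seg (x y : ℂ) {a b : ℝ} (hab : a < b) (h : dist x y ≤ b - a) :
    ∃ f : ℝ → ℂ, Lip 1 f ∧ f a = x ∧ f b = y := by
  have hp : 0 < b - a := sub_pos.2 hab
  refine ⟨_, lip_line x ((y - x) / ((b - a : ℝ) : ℂ)) a ?_, by simp, ?_⟩
  · rw [norm_div, Complex.norm_real, Real.norm_eq_abs, abs_of_pos hp, div_le_one hp,
      ← Complex.dist_eq, dist_comm]
    exact h
  · have : ((b - a : ℝ) : ℂ) ≠ 0 := by exact_mod_cast hp.ne'
    field_simp
    ring

theorem detour {σ : ℝ → ℂ} (hσ : Lip 1 σ) {a b c : ℝ} (hab : a < b) (hbc : b < c) {y : ℂ}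
    (h1 : dist (σ a) y ≤ b - a) (h2 : dist y (σ c) ≤ c - b) :
    ∃ σ' : ℝ → ℂ, Lip 1 σ' ∧ σ' b = y ∧ ∀ t, t ∉ Ioo a c → σ' t = σ t := by
  obtain ⟨f, f1, f2, f3⟩ := lip_seg _ _ hab h1
  obtain ⟨g, g1, g2, g3⟩ := lip_seg _ _ hbc h2
  refine ⟨_, hσ.glue (f1.glue (g1.glue hσ c g3) b (by simp [hbc.le, f3, g2])) a
    (by simp [hab.le, f2]), by simp [hab, f3], fun t ht => ?_⟩
  by_cases k1 : t ≤ a
  · simp [k1]
  · have k2 : c ≤ t := by
      by_contra k
      exact ht ⟨not_le.1 k1, not_le.1 k⟩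
    have k3 : ¬t ≤ b := not_le.2 (hbc.trans_le k2)
    rcases k2.eq_or_lt with rfl | k4
    · simp [k1, k3, g3]
    · simp [k1, k3, not_le.2 k4]

theorem detours {ι : Type} {σ : ℝ → ℂ} (hσ : Lip 1 σ) (a b c : ι → ℝ) (y : ι → ℂ)
    (hd : ∀ g g', g ≠ g' → c g ≤ a g' ∨ c g' ≤ a g) (s : Finset ι)
    (hs : ∀ g ∈ s, a g < b g ∧ b g < c g ∧ dist (σ (a g)) (y g) ≤ b g - a g ∧
      dist (y g) (σ (c g)) ≤ c g - b g) :
    ∃ σ' : ℝ → ℂ, Lip 1 σ' ∧ (∀ g ∈ s, σ' (b g) = y g) ∧
      ∀ t, (∀ g ∈ s, t ∉ Ioo (a g) (c g)) → σ' t = σ t := by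
  classical
  induction s using Finset.induction_on with
  | empty => exact ⟨σ, hσ, by simp, fun _ _ => rfl⟩
  | insert k s hk ih =>
    obtain ⟨τ, t1, t2, t3⟩ := ih fun g hg => hs g (Finset.mem_insert_of_mem hg)
    obtain ⟨k1, k2, k3, k4⟩ := hs k (Finset.mem_insert_self _ _)
    have hne : ∀ g ∈ s, c g ≤ a k ∨ c k ≤ a g := fun g hg =>
      hd g k fun e => hk (e ▸ hg)
    have ea : τ (a k) = σ (a k) := t3 _ fun g hg hm => by
      rcases hne g hg with h | h <;> linarith [hm.1, hm.2]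
    have ec : τ (c k) = σ (c k) := t3 _ fun g hg hm => by
      rcases hne g hg with h | h <;> linarith [hm.1, hm.2]
    obtain ⟨ρ, r1, r2, r3⟩ := detour t1 k1 k2 (y := y k) (by rwa [ea]) (by rwa [ec])
    refine ⟨ρ, r1, fun g hg => ?_, fun t ht => ?_⟩
    · rcases Finset.mem_insert.1 hg with rfl | hg'
      · exact r2
      · obtain ⟨m1, m2, -, -⟩ := hs g hg
        rw [r3 _ fun hm => by rcases hne g hg' with h | h <;> linarith [hm.1, hm.2], t2 g hg']
    · rw [r3 t (ht k (Finset.mem_insert_self _ _)),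
        t3 t fun g hg => ht g (Finset.mem_insert_of_mem hg)]

theorem share_pi {ι O : Type} [Fintype ι] [DecidableEq ι] [Fintype O] [Nonempty O]
    (G : Finset (ι → O)) (B : ι → Finset O) (h : ∀ ω, ω ∉ G → ∀ g, ω g ∈ B g) :
    1 - ∏ g, ((B g).card / Fintype.card O : ℝ) ≤ G.card / Fintype.card (ι → O) := by
  classical
  have hO : (0 : ℝ) < Fintype.card O := by exact_mod_cast Fintype.card_pos
  have hN : (0 : ℝ) < Fintype.card (ι → O) := by exact_mod_cast Fintype.card_pos
  have h1 : Gᶜ.card ≤ (Fintype.piFinset B).card :=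
    Finset.card_le_card fun ω hω => Fintype.mem_piFinset.2 (h ω (Finset.mem_compl.1 hω))
  have h2 : (G.card : ℝ) + Gᶜ.card = Fintype.card (ι → O) := by
    exact_mod_cast Finset.card_add_card_compl G
  have h3 : ∏ g, ((B g).card / Fintype.card O : ℝ) =
      (Fintype.piFinset B).card / Fintype.card (ι → O) := by
    rw [Finset.prod_div_distrib, Fintype.card_piFinset, Fintype.card_fun]
    simp
  have h4 : (Gᶜ.card : ℝ) ≤ (Fintype.piFinset B).card := by exact_mod_cast h1
  rw [h3, sub_le_iff_le_add, ← add_div, le_div_iff₀ hN]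
  linarith

theorem bern {n : ℝ} (hn : 1 ≤ n) (s : ℕ) : (1 - 1 / n) ^ s * s ≤ n := by
  have h0 : 0 < n := by linarith
  have hx : 0 < 1 / n := by positivity
  have hx1 : 1 / n ≤ 1 := (div_le_one h0).2 hn
  have h1 : 1 + s * (1 / n) ≤ (1 + 1 / n) ^ s := one_add_mul_le_pow (by linarith) s
  have h2 : (1 - 1 / n) ^ s * (1 + 1 / n) ^ s ≤ 1 := by
    rw [← mul_pow]
    exact pow_le_one₀ (by nlinarith) (by nlinarith)
  have h3 : 0 ≤ (1 - 1 / n) ^ s := pow_nonneg (by linarith) s
  have h4 : (1 - 1 / n) ^ s * (s * (1 / n)) ≤ 1 := by nlinarith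
  rw [← mul_assoc, mul_one_div, div_le_one h0] at h4
  exact h4

/-- the check times -/
def tau (K : ℕ) (S : ℝ) (g j : ℕ) : ℝ := ((g : ℝ) * K + j) * S

open Classical in
theorem detour_avg {r w D L S θ ε : ℝ} (hL : 0 < L) (hDL : D + w * L ≤ L)
    (hS0 : 0 < S) (hw1 : w ≤ 1) (hS : 2 * L + 2 * D ≤ (1 - w) * S) (Y : Finset ℂ)
    (hY : ∀ y ∈ Y, ‖y‖ ≤ L) (hYn : ∀ z : ℂ, ‖z‖ ≤ L → ∃ y ∈ Y, dist y z ≤ r) (m K q : ℕ)
    (hm : 0 < m) (hK : 0 < K) (hθ : 0 < θ) (h1 : 1 / ((q : ℝ) + 1) ≤ ε) (h2 : θ + 1 / K ≤ ε)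
    (h3 : ((q : ℝ) + 1) * (K * Y.card) ≤ ε * (θ * m)) {σ : ℝ → ℂ} (hσ : Lip 1 σ) :
    ∃ σ' : (Fin m → Fin (q + 1) × Fin K × Y) → ℝ → ℂ, (∀ ω, Lip 1 (σ' ω) ∧ σ' ω 0 = σ 0) ∧
      ∀ h : ℝ → ℂ, Lip w h →
        ((Finset.univ.filter fun k : Fin m × Fin K => Cap r (tau K S k.1 k.2) σ h ∨
          dist (σ (tau K S k.1 k.2)) (h (tau K S k.1 k.2)) ≤ D).card : ℝ) / (m * K) ≤
        ((Finset.univ.filter fun ω => Cap r (m * K * S) (σ' ω) h).card : ℝ) /
          Fintype.card (Fin m → Fin (q + 1) × Fin K × Y) + ε := by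
  have hK' : (0 : ℝ) < K := by exact_mod_cast hK
  have hm' : (0 : ℝ) < m := by exact_mod_cast hm
  have hYne : Nonempty Y := by
    obtain ⟨y, hy, -⟩ := hYn 0 (by simpa using hL.le)
    exact ⟨⟨y, hy⟩⟩
  have : Nonempty (Fin K) := ⟨⟨0, hK⟩⟩
  set c : Fin m → ℝ := fun g => ((g : ℝ) + 1) * K * S with hc
  have t0 : ∀ (g : Fin m) (j : Fin K), (g : ℝ) * K * S ≤ tau K S g j := fun g j => by
    have : (0 : ℝ) ≤ (j : ℕ) := Nat.cast_nonneg _
    unfold tau
    nlinarith
  have t00 : ∀ g : Fin m, 0 ≤ (g : ℝ) * K * S := fun g => by positivity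
  have t1 : ∀ (g : Fin m) (j : Fin K), tau K S g j ≤ c g := fun g j => by
    have : ((j : ℕ) : ℝ) ≤ K := by exact_mod_cast j.2.le
    simp only [tau, hc]
    nlinarith
  have t2 : ∀ g g' : Fin m, g < g' → c g ≤ (g' : ℝ) * K * S := fun g g' h => by
    have : ((g : ℕ) : ℝ) + 1 ≤ (g' : ℕ) := by exact_mod_cast h
    simp only [hc]
    gcongr
  have t3 : ∀ g : Fin m, c g ≤ m * K * S := fun g => by
    have : ((g : ℕ) : ℝ) + 1 ≤ m := by exact_mod_cast g.2
    simp only [hc]
    gcongr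
  have key : ∀ ω : Fin m → Fin (q + 1) × Fin K × Y, ∃ σ' : ℝ → ℂ, Lip 1 σ' ∧
      (∀ g, (ω g).1 = 0 → dist (σ (tau K S g (ω g).2.1)) (σ (c g)) + 2 * L ≤
          c g - tau K S g (ω g).2.1 →
        σ' (tau K S g (ω g).2.1 + L) = σ (tau K S g (ω g).2.1) + (ω g).2.2) ∧
      ∀ t, (∀ g, (ω g).1 = 0 → t ∉ Ioo ((g : ℝ) * K * S) (c g)) → σ' t = σ t := fun ω => by
    obtain ⟨σ', s1, s2, s3⟩ := detours hσ (fun g : Fin m => tau K S g (ω g).2.1)
      (fun g => tau K S g (ω g).2.1 + L) c (fun g => σ (tau K S g (ω g).2.1) + (ω g).2.2)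
      (fun g g' hne => by
        rcases lt_or_gt_of_ne hne with h | h
        · exact Or.inl ((t2 _ _ h).trans (t0 _ _))
        · exact Or.inr ((t2 _ _ h).trans (t0 _ _)))
      (Finset.univ.filter fun g => (ω g).1 = 0 ∧
        dist (σ (tau K S g (ω g).2.1)) (σ (c g)) + 2 * L ≤ c g - tau K S g (ω g).2.1)
      (fun g hg => by
        have k1 := (Finset.mem_filter.1 hg).2.2
        have k2 : dist (σ (tau K S g (ω g).2.1)) (σ (tau K S g (ω g).2.1) + (ω g).2.2) ≤ L := by
          rw [dist_self_add_right]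
          exact hY _ (ω g).2.2.2
        have k3 := dist_triangle_left (σ (tau K S g (ω g).2.1) + (ω g).2.2) (σ (c g))
          (σ (tau K S g (ω g).2.1))
        have k4 := dist_nonneg (x := σ (tau K S g (ω g).2.1)) (y := σ (c g))
        exact ⟨by linarith, by linarith, by linarith, by linarith⟩)
    refine ⟨σ', s1, fun g g1 g2 => s2 g (Finset.mem_filter.2 ⟨Finset.mem_univ _, g1, g2⟩),
      fun t ht => s3 t fun g hg hm => ht g (Finset.mem_filter.1 hg).2.1 ⟨?_, hm.2⟩⟩
    exact (t0 _ _).trans_lt hm.1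
  choose σ' s1 s2 s3 using key
  refine ⟨σ', fun ω => ⟨s1 ω, s3 ω 0 fun g _ hm => (t00 g).not_gt hm.1⟩, fun h hh => ?_⟩
  set n : ℝ := (Fintype.card (Fin (q + 1) × Fin K × Y) : ℝ) with hn
  have hn1 : n = ((q : ℝ) + 1) * (K * Y.card) := by simp [hn]
  have hn2 : 1 ≤ n := by
    rw [hn]
    exact_mod_cast Fintype.card_pos
  have hf1 : ((Finset.univ.filter fun k : Fin m × Fin K => Cap r (tau K S k.1 k.2) σ h ∨
      dist (σ (tau K S k.1 k.2)) (h (tau K S k.1 k.2)) ≤ D).card : ℝ) / (m * K) ≤ 1 := by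
    rw [div_le_one (by positivity)]
    have := Finset.card_filter_le (Finset.univ : Finset (Fin m × Fin K)) fun k =>
      Cap r (tau K S k.1 k.2) σ h ∨ dist (σ (tau K S k.1 k.2)) (h (tau K S k.1 k.2)) ≤ D
    simp only [Finset.card_univ, Fintype.card_prod, Fintype.card_fin] at this
    exact_mod_cast this
  by_cases hB : Cap r (m * K * S) σ h
  · obtain ⟨t, ht0, htT, ht⟩ := hB
    obtain ⟨g0, hg0⟩ : ∃ g0 : Fin m, ∀ g : Fin m, t ∈ Ioo ((g : ℝ) * K * S) (c g) → g = g0 := by
      by_cases hex : ∃ g : Fin m, t ∈ Ioo ((g : ℝ) * K * S) (c g)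
      · obtain ⟨g0, k0⟩ := hex
        refine ⟨g0, fun g k1 => ?_⟩
        by_contra hne
        rcases lt_or_gt_of_ne hne with k | k <;> linarith [t2 _ _ k, k0.1, k0.2, k1.1, k1.2]
      · exact ⟨⟨0, hm⟩, fun g k1 => (hex ⟨g, k1⟩).elim⟩
    have hsh := share_pi (Finset.univ.filter fun ω => Cap r (m * K * S) (σ' ω) h)
      (fun g => if g = g0 then ({0} : Finset (Fin (q + 1))) ×ˢ Finset.univ else Finset.univ)
      (fun ω hω g => by
        split_ifs with e
        · subst e
          by_contra k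
          refine hω (Finset.mem_filter.2 ⟨Finset.mem_univ _, t, ht0, htT, ?_⟩)
          rwa [s3 ω t fun g' k1 k2 => k (by
            rw [← hg0 g' k2]
            exact Finset.mem_product.2 ⟨Finset.mem_singleton.2 k1, Finset.mem_univ _⟩)]
        · exact Finset.mem_univ _)
    have e : ∏ g : Fin m, (((if g = g0 then ({0} : Finset (Fin (q + 1))) ×ˢ
        (Finset.univ : Finset (Fin K × Y)) else Finset.univ).card : ℝ) / n) = 1 / (q + 1) := by
      rw [Finset.prod_eq_single g0 (fun g _ hg => by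
        rw [if_neg hg, Finset.card_univ, ← hn, div_self (by linarith)]) (by simp), hn1]
      have : (0 : ℝ) < Y.card := by
        obtain ⟨y⟩ := hYne
        exact_mod_cast Finset.card_pos.2 ⟨_, y.2⟩
      simp only [if_true, Finset.card_product, Finset.card_singleton, Finset.card_univ,
        Fintype.card_prod, Fintype.card_fin, Fintype.card_coe]
      push_cast
      field_simp
    rw [← hn, e] at hsh
    linarith
  · set G : Finset (Fin m) := Finset.univ.filter fun g => ∃ j j' : Fin K, j < j' ∧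
      dist (σ (tau K S g j)) (h (tau K S g j)) ≤ D ∧
      dist (σ (tau K S g j')) (h (tau K S g j')) ≤ D with hG
    have hcount : ((Finset.univ.filter fun k : Fin m × Fin K => Cap r (tau K S k.1 k.2) σ h ∨
        dist (σ (tau K S k.1 k.2)) (h (tau K S k.1 k.2)) ≤ D).card : ℝ) ≤ G.card * K + m := by
      have b1 : (Finset.univ.filter fun k : Fin m × Fin K => Cap r (tau K S k.1 k.2) σ h ∨
          dist (σ (tau K S k.1 k.2)) (h (tau K S k.1 k.2)) ≤ D) ⊆
          (G ×ˢ Finset.univ) ∪ Finset.univ.filter fun k : Fin m × Fin K => k.1 ∉ G ∧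
            dist (σ (tau K S k.1 k.2)) (h (tau K S k.1 k.2)) ≤ D := by
        intro k hk
        rcases (Finset.mem_filter.1 hk).2 with ⟨t, k1, k2, k3⟩ | k1
        · exact (hB ⟨t, k1, k2.trans ((t1 _ _).trans (t3 _)), k3⟩).elim
        · by_cases k2 : k.1 ∈ G
          · exact Finset.mem_union_left _ (Finset.mem_product.2 ⟨k2, Finset.mem_univ _⟩)
          · exact Finset.mem_union_right _ (Finset.mem_filter.2 ⟨Finset.mem_univ _, k2, k1⟩)
      have b2 : (Finset.univ.filter fun k : Fin m × Fin K => k.1 ∉ G ∧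
          dist (σ (tau K S k.1 k.2)) (h (tau K S k.1 k.2)) ≤ D).card ≤
          (Finset.univ : Finset (Fin m)).card := by
        refine Finset.card_le_card_of_injOn Prod.fst (fun _ _ => Finset.mem_univ _) ?_
        rintro ⟨g, j⟩ k1 ⟨g', j'⟩ k2 e
        obtain rfl : g = g' := e
        have k3 := (Finset.mem_filter.1 (Finset.mem_coe.1 k1)).2
        have k4 := (Finset.mem_filter.1 (Finset.mem_coe.1 k2)).2
        by_contra hne
        have hj : j ≠ j' := fun e => hne (by rw [e])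
        rcases lt_or_gt_of_ne hj with k | k
        · exact k3.1 (Finset.mem_filter.2 ⟨Finset.mem_univ _, j, j', k, k3.2, k4.2⟩)
        · exact k3.1 (Finset.mem_filter.2 ⟨Finset.mem_univ _, j', j, k, k4.2, k3.2⟩)
      have b3 := (Finset.card_le_card b1).trans ((Finset.card_union_le _ _).trans
        (Nat.add_le_add_left b2 _))
      simp only [Finset.card_product, Finset.card_univ, Fintype.card_fin] at b3
      exact_mod_cast b3
    have hopt : ∀ g : Fin m, ∃ o : Fin (q + 1) × Fin K × Y, g ∈ G →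
        ∀ ω, ω g = o → Cap r (m * K * S) (σ' ω) h := fun g => by
      by_cases hg : g ∈ G
      · obtain ⟨j, j', k1, k2, k3⟩ := (Finset.mem_filter.1 hg).2
        have k4 : tau K S g j + S ≤ tau K S g j' := by
          have : ((j : ℕ) : ℝ) + 1 ≤ (j' : ℕ) := by exact_mod_cast k1
          unfold tau
          nlinarith
        have k5 := hh.le (show tau K S g j ≤ tau K S g j' by linarith)
        have k6 := hσ.le (t1 g j')
        have k7 := dist_triangle4 (σ (tau K S g j)) (h (tau K S g j)) (h (tau K S g j'))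
          (σ (tau K S g j'))
        rw [dist_comm (h (tau K S g j'))] at k7
        have k8 := dist_triangle (σ (tau K S g j)) (σ (tau K S g j')) (σ (c g))
        have k9 : dist (σ (tau K S g j)) (σ (c g)) + 2 * L ≤ c g - tau K S g j := by
          nlinarith
        have k10 := hh.le (show tau K S g j ≤ tau K S g j + L by linarith)
        obtain ⟨y, hy, hyd⟩ := hYn (h (tau K S g j + L) - σ (tau K S g j)) (by
          rw [← Complex.dist_eq, dist_comm]
          have := dist_triangle (σ (tau K S g j)) (h (tau K S g j)) (h (tau K S g j + L))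
          rw [add_sub_cancel_left] at k10
          linarith)
        refine ⟨(0, j, ⟨y, hy⟩), fun _ ω e => ?_⟩
        have k11 := s2 ω g (by rw [e]) (by rw [e]; exact k9)
        rw [e] at k11
        have k12 := dist_nonneg (x := σ (tau K S g j)) (y := σ (c g))
        refine ⟨tau K S g j + L, by linarith [t0 g j, t00 g], by linarith [t3 g], ?_⟩
        rw [k11, ← dist_sub_right _ _ (σ (tau K S g j)), add_sub_cancel_left]
        exact hyd
      · exact ⟨Classical.arbitrary _, fun k => (hg k).elim⟩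
    choose o ho using hopt
    have hsh := share_pi (Finset.univ.filter fun ω => Cap r (m * K * S) (σ' ω) h)
      (fun g => if g ∈ G then Finset.univ.erase (o g) else Finset.univ)
      (fun ω hω g => by
        split_ifs with e
        · exact Finset.mem_erase.2 ⟨fun k => hω (Finset.mem_filter.2
            ⟨Finset.mem_univ _, ho g e ω k⟩), Finset.mem_univ _⟩
        · exact Finset.mem_univ _)
    have e : ∏ g : Fin m, (((if g ∈ G then Finset.univ.erase (o g) else Finset.univ).card : ℝ) / n)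
        = (1 - 1 / n) ^ G.card := by
      rw [← Finset.prod_const, ← Finset.prod_ite_mem_eq G]
      refine Finset.prod_congr rfl fun g _ => ?_
      split_ifs
      · rw [Finset.cast_card_erase_of_mem (Finset.mem_univ _), Finset.card_univ, ← hn]
        field_simp
      · rw [Finset.card_univ, ← hn, div_self (by linarith)]
    rw [← hn, e] at hsh
    have hb := bern hn2 G.card
    have hp : 0 ≤ (1 - 1 / n) ^ G.card :=
      pow_nonneg (sub_nonneg.2 ((div_le_one (by linarith)).2 hn2)) _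
    by_cases hs : (G.card : ℝ) ≤ θ * m
    · have b1 : ((G.card : ℝ) * K + m) / (m * K) ≤ θ + 1 / K := by
        rw [div_le_iff₀ (by positivity)]
        have : (θ + 1 / K) * (m * K) = θ * m * K + m := by field_simp
        rw [this]
        gcongr
      have b2 := (div_le_div_of_nonneg_right hcount (by positivity)).trans b1
      have b3 : (0 : ℝ) ≤ ((Finset.univ.filter fun ω => Cap r (m * K * S) (σ' ω) h).card : ℝ) /
          Fintype.card (Fin m → Fin (q + 1) × Fin K × Y) := by positivity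
      linarith
    · have b1 : (1 - 1 / n) ^ G.card * (θ * m) ≤ ε * (θ * m) := by
        have := mul_le_mul_of_nonneg_left (not_le.1 hs).le hp
        linarith
      have b2 := le_of_mul_le_mul_right b1 (by positivity)
      linarith

end Pool.Agent.MP_66a317_pr.Value
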