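import Pool.Agent.MP_66a317_pr.Upper

open MeasureTheory Metric Set Filter Topology
open scoped NNReal ENNReal

namespace Pool.Agent.MP_66a317_pr.Value

open Classical in
/-- finite games -/
theorem fin_game {X ι : Type} [Fintype ι] [Nonempty ι] [Nonempty X] [MeasurableSpace X]
    (C : ι → Set X) (hC : ∀ i, MeasurableSet (C i)) (c : ℝ)
    (hc : ∀ y : ι → ℝ, (∀ i, 0 ≤ y i) → ∑ i, y i = 1 →
      ∃ x, c < ∑ i, y i * (if x ∈ C i then 1 else 0)) :
    ∃ μ : ProbabilityMeasure X, ∀ i, ENNReal.ofReal c ≤ (μ : Measure X) (C i) := by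
  let pat : X → ι → ℝ := fun x i => if x ∈ C i then 1 else 0
  have hfin : (range pat).Finite := by
    refine (Set.Finite.pi' (t := fun _ : ι => ({0, 1} : Set ℝ)) fun _ => by simp).subset ?_
    rintro _ ⟨x, rfl⟩ i
    by_cases h : x ∈ C i <;> simp [pat, h]
  obtain ⟨a, ha, b, hb, hab⟩ := Sion.exists_isSaddlePointOn (X := stdSimplex ℝ ι)
    (Y := convexHull ℝ (range pat)) (f := fun y k => ∑ i, y i * k i)
    ⟨_, single_mem_stdSimplex ℝ (Classical.arbitrary ι)⟩ (convex_stdSimplex ℝ ι)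
    (isCompact_stdSimplex ℝ ι)
    (fun k _ => (Continuous.lowerSemicontinuous (by fun_prop)).lowerSemicontinuousOn _)
    (fun k _ => ConvexOn.quasiconvexOn ⟨convex_stdSimplex ℝ ι, fun x _ y _ s t _ _ _ =>
      le_of_eq (by simp [Finset.mul_sum, add_mul, Finset.sum_add_distrib, mul_assoc])⟩)
    (convex_convexHull ℝ _) ((range_nonempty pat).mono (subset_convexHull ℝ _))
    (hfin.isCompact_convexHull ℝ)
    (fun k _ => (Continuous.upperSemicontinuous (by fun_prop)).upperSemicontinuousOn _)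
    (fun k _ => ConcaveOn.quasiconcaveOn ⟨convex_convexHull ℝ _, fun x _ y _ s t _ _ _ =>
      le_of_eq (by
        simp only [Finset.mul_sum, smul_eq_mul, Pi.add_apply, Pi.smul_apply,
          ← Finset.sum_add_distrib]
        exact Finset.sum_congr rfl fun i _ => by ring)⟩)
  obtain ⟨x0, hx0⟩ := hc a ha.1 ha.2
  have hbi : ∀ i, c ≤ b i := fun i => by
    have h := hab _ (single_mem_stdSimplex ℝ i) (pat x0) (subset_convexHull ℝ _ ⟨x0, rfl⟩)
    have e : ∑ j, (Pi.single i (1 : ℝ) : ι → ℝ) j * b j = b i := by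
      simp [Pi.single_apply]
    simp only [e] at h
    exact hx0.le.trans h
  obtain ⟨κ, _, u, z, hu0, hu1, hz, hzb⟩ := mem_convexHull_iff_exists_fintype.1 hb
  choose x hx using hz
  have hp : IsProbabilityMeasure (∑ j, ENNReal.ofReal (u j) • Measure.dirac (x j)) := ⟨by
    simp only [Measure.coe_finsetSum, Finset.sum_apply, Measure.smul_apply, measure_univ,
      smul_eq_mul, mul_one]
    rw [← ENNReal.ofReal_sum_of_nonneg fun j _ => hu0 j, hu1, ENNReal.ofReal_one]⟩
  refine ⟨⟨_, hp⟩, fun i => ?_⟩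
  refine (ENNReal.ofReal_le_ofReal (hbi i)).trans (le_of_eq ?_)
  rw [ProbabilityMeasure.coe_mk, ← hzb]
  simp only [Measure.coe_finsetSum, Finset.sum_apply, Measure.smul_apply, smul_eq_mul,
    Pi.smul_apply]
  rw [ENNReal.ofReal_sum_of_nonneg fun j _ => mul_nonneg (hu0 j) (by
    rw [← hx j]; by_cases h : x j ∈ C i <;> simp [pat, h])]
  refine Finset.sum_congr rfl fun j _ => ?_
  rw [ENNReal.ofReal_mul (hu0 j), Measure.dirac_apply' _ (hC i), ← hx j]
  by_cases h : x j ∈ C i <;> simp [pat, h]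

open Classical in
/-- games with closed winning sets on a compact space -/
theorem closed_game {X H : Type} [TopologicalSpace X] [CompactSpace X] [T2Space X]
    [MeasurableSpace X] [BorelSpace X] [HasOuterApproxClosed X] [Nonempty X] [Nonempty H]
    (C : H → Set X) (hC : ∀ h, IsClosed (C h)) (c : ℝ) :
    (∃ μ : ProbabilityMeasure X, ∀ h, ENNReal.ofReal c ≤ (μ : Measure X) (C h)) ∨
      ∃ (F : Finset H) (y : F → ℝ), (∀ i, 0 ≤ y i) ∧ ∑ i, y i = 1 ∧
        ∀ x, ∑ i, y i * (if x ∈ C i then 1 else 0) ≤ c := by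
  refine or_iff_not_imp_right.2 fun hn => ?_
  have hcl : ∀ h, IsClosed {μ : ProbabilityMeasure X |
      ENNReal.ofReal c ≤ (μ : Measure X) (C h)} := fun h => by
    refine isClosed_iff_clusterPt.2 fun μ hμ => ?_
    set S := {μ : ProbabilityMeasure X | ENNReal.ofReal c ≤ (μ : Measure X) (C h)} with hS
    have hne : (𝓝 μ ⊓ 𝓟 S).NeBot := hμ
    have h1 := ProbabilityMeasure.limsup_measure_closed_le_of_tendsto (L := 𝓝 μ ⊓ 𝓟 S)
      (μs := id) (μ := μ) (tendsto_id.mono_left inf_le_left) (hC h)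
    refine le_trans ?_ h1
    refine le_limsup_of_frequently_le (Eventually.frequently ?_)
    exact eventually_inf_principal.2 (Eventually.of_forall fun ν hν => hν)
  obtain ⟨μ, -, hμ⟩ := isCompact_univ.inter_iInter_nonempty _ hcl fun u => by
    obtain ⟨h0⟩ := ‹Nonempty H›
    have : Nonempty (insert h0 u : Finset H) := ⟨⟨h0, by simp⟩⟩
    obtain ⟨μ, hμ⟩ := fin_game (ι := (insert h0 u : Finset H)) (fun i => C i)
      (fun i => (hC i).measurableSet) c fun y h0 h1 => by
        by_contra hx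
        exact hn ⟨_, y, h0, h1, fun x => not_lt.1 fun hlt => hx ⟨x, hlt⟩⟩
    refine ⟨μ, mem_univ _, mem_iInter₂.2 fun h hh => hμ ⟨h, by simp [hh]⟩⟩
  exact ⟨μ, fun h => mem_iInter.1 hμ h⟩

variable (a : ℂ) (v : ℝ)

theorem traj_lip (f : Traj a v) : LipschitzWith v.toNNReal f.1 :=
  LipschitzWith.of_dist_le_mul fun s t => (f.2.2 s t).trans
    (mul_le_mul_of_nonneg_right (Real.le_coe_toNNReal v) dist_nonneg)

theorem traj_at (t : ℝ≥0) : Continuous fun f : Traj a v => f.1 t :=
  (continuous_apply t).comp continuous_subtype_val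

theorem traj_compact : CompactSpace (Traj a v) := by
  refine (isCompact_iff_compactSpace (s := {f : ℝ≥0 → ℂ | f 0 = a ∧
    ∀ s t : ℝ≥0, dist (f s) (f t) ≤ v * dist s t})).1 ?_
  refine (isCompact_univ_pi fun t : ℝ≥0 => isCompact_closedBall a (v * dist t 0)).of_isClosed_subset
    ?_ ?_
  · refine (isClosed_eq (continuous_apply 0) continuous_const).inter ?_
    change IsClosed {f : ℝ≥0 → ℂ | ∀ s t : ℝ≥0, dist (f s) (f t) ≤ v * dist s t}
    simp only [ofPred_forall]
    exact isClosed_iInter fun s => isClosed_iInter fun t =>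
      isClosed_le (by fun_prop) continuous_const
  · rintro f ⟨h0, h1⟩ t -
    rw [mem_closedBall, ← h0]
    exact h1 t 0

theorem traj_emb : IsClosedEmbedding
    (fun (f : Traj a v) (n : ℕ) => f.1 (TopologicalSpace.denseSeq ℝ≥0 n)) := by
  have := traj_compact a v
  refine Continuous.isClosedEmbedding (continuous_pi fun n => traj_at a v _) fun f g h => Subtype.ext ?_
  exact (TopologicalSpace.denseRange_denseSeq ℝ≥0).equalizer (traj_lip a v f).continuous
    (traj_lip a v g).continuous h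

theorem traj_second : SecondCountableTopology (Traj a v) :=
  (traj_emb a v).isEmbedding.secondCountableTopology

theorem traj_metr : TopologicalSpace.PseudoMetrizableSpace (Traj a v) :=
  (traj_emb a v).isInducing.pseudoMetrizableSpace

theorem traj_borel : BorelSpace (Traj a v) := by
  refine ⟨le_antisymm ?_ ?_⟩
  · have h : @Measurable (Traj a v) (ℝ≥0 → ℂ) (borel _) _ Subtype.val := by
      refine @measurable_pi_lambda _ _ _ (borel _) _ _ fun t => ?_
      have h3 := (traj_at a v t).borel_measurable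
      rwa [← BorelSpace.measurable_eq (α := ℂ)] at h3
    exact measurable_iff_comap_le.1 h
  · have h1 := (traj_emb a v).isInducing.eq_induced
    have h2 : Measurable (fun (f : Traj a v) (n : ℕ) => f.1 (TopologicalSpace.denseSeq ℝ≥0 n)) :=
      measurable_pi_lambda _ fun n => (measurable_pi_apply _).comp measurable_subtype_coe
    have h3 := measurable_iff_comap_le.1 h2
    rw [BorelSpace.measurable_eq (α := ℕ → ℂ), ← borel_comap, ← h1] at h3
    exact h3

theorem traj_eval : Continuous fun p : Traj a v × ℝ≥0 => p.1.1 p.2 :=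
  continuous_prod_of_continuous_lipschitzWith' _ v.toNNReal (fun f => traj_lip a v f)
    fun t => traj_at a v t

theorem cap_closed (a' : ℂ) (v' r : ℝ) (T : ℝ≥0) :
    IsClosed {p : Traj a v × Traj a' v' | ∃ t ≤ T, dist (p.1.1 t) (p.2.1 t) ≤ r} := by
  have h1 : IsClosed {x : (Traj a v × Traj a' v') × Icc (0 : ℝ≥0) T |
      dist (x.1.1.1 x.2.1) (x.1.2.1 x.2.1) ≤ r} := by
    refine isClosed_le (Continuous.dist ?_ ?_) continuous_const
    · exact (traj_eval a v).comp (f := fun x : (Traj a v × Traj a' v') × Icc (0 : ℝ≥0) T =>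
        (x.1.1, x.2.1)) (by fun_prop)
    · exact (traj_eval a' v').comp (f := fun x : (Traj a v × Traj a' v') × Icc (0 : ℝ≥0) T =>
        (x.1.2, x.2.1)) (by fun_prop)
  convert isClosedMap_fst_of_compactSpace _ h1 using 1
  ext p
  constructor
  · rintro ⟨t, ht, h⟩
    exact ⟨(p, ⟨t, zero_le, ht⟩), h, rfl⟩
  · rintro ⟨x, h, rfl⟩
    exact ⟨x.2.1, x.2.2.2, h⟩

theorem cap_meas (a' : ℂ) (v' r : ℝ) :
    MeasurableSet {p : Traj a v × Traj a' v' | ∃ t, dist (p.1.1 t) (p.2.1 t) ≤ r} := by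
  have := traj_borel a v
  have := traj_borel a' v'
  have := traj_second a v
  have e : {p : Traj a v × Traj a' v' | ∃ t, dist (p.1.1 t) (p.2.1 t) ≤ r} =
      ⋃ n : ℕ, {p : Traj a v × Traj a' v' | ∃ t ≤ (n : ℝ≥0), dist (p.1.1 t) (p.2.1 t) ≤ r} := by
    ext p
    simp only [mem_iUnion, mem_ofPred_eq]
    constructor
    · rintro ⟨t, h⟩
      obtain ⟨n, hn⟩ := exists_nat_ge t
      exact ⟨n, t, hn, h⟩
    · rintro ⟨n, t, -, h⟩
      exact ⟨t, h⟩
  rw [e]
  exact MeasurableSet.iUnion fun n => (cap_closed a v a' v' r n).measurableSet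

/-- weak duality -/
theorem value_le_mix (r w : ℝ) (A : ℂ) (ν : ProbabilityMeasure (Traj 0 w)) (B : ℝ≥0∞)
    (hB : ∀ σ : Traj A 1, (ν : Measure (Traj 0 w)) {h | ∃ t, dist (σ.1 t) (h.1 t) ≤ r} ≤ B) :
    value r w A ≤ B := by
  refine iSup_le fun μ => ?_
  have hE := cap_meas A 1 0 w r
  calc _ ≤ ∫⁻ h, (μ : Measure (Traj A 1)) {σ | ∃ t : ℝ≥0, dist (σ.1 t) (h.1 t) ≤ r}
        ∂(ν : Measure (Traj 0 w)) := by
        refine le_trans (le_of_eq ?_) (lintegral_mono fun h => iInf_le (fun h : Traj 0 w =>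
          (μ : Measure (Traj A 1)) {σ | ∃ t : ℝ≥0, dist (σ.1 t) (h.1 t) ≤ r}) h)
        simp
    _ = ((μ : Measure (Traj A 1)).prod (ν : Measure (Traj 0 w)))
        {p | ∃ t, dist (p.1.1 t) (p.2.1 t) ≤ r} := (Measure.prod_apply_symm hE).symm
    _ ≤ ∫⁻ _, B ∂(μ : Measure (Traj A 1)) := by
        rw [Measure.prod_apply hE]
        exact lintegral_mono fun σ => hB σ
    _ = B := by simp

end Pool.Agent.MP_66a317_pr.Value
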