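import Pool.Agent.MP_66a317_pr.Value.Main

open MeasureTheory
open scoped NNReal

namespace Pool.Agent.Results.MP_66a317_pr.HasValue

open Pool.Agent.MP_66a317_pr

theorem result (r w ε : ℝ) (hr : 0 < r) (hw0 : 0 < w) (hw1 : w < 1) (hε : 0 < ε) :
    ∃ T : ℝ≥0, ∀ A : ℂ, ∃ (μ : ProbabilityMeasure (Traj A 1)) (ν : ProbabilityMeasure (Traj 0 w)),
      ∀ (σ : Traj A 1) (h : Traj 0 w),
        (ν : Measure (Traj 0 w)) {g | ∃ t : ℝ≥0, dist (σ.1 t) (g.1 t) ≤ r} ≤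
            value r w A + ENNReal.ofReal ε ∧
          value r w A ≤ (μ : Measure (Traj A 1)) {s | ∃ t ≤ T, dist (s.1 t) (h.1 t) ≤ r} +
            ENNReal.ofReal ε :=
  Value.has_value hr hw0 hw1 hε

end Pool.Agent.Results.MP_66a317_pr.HasValue
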