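import Pool.Agent.MP_66a317_pr.Value.Game
import Pool.Agent.MP_66a317_pr.Value.Detour

open MeasureTheory Metric Set
open scoped NNReal ENNReal

namespace Pool.Agent.MP_66a317_pr.Value

/-- a path as a function of real time -/
noncomputable def ext {a : ℂ} {v : ℝ} (f : Traj a v) : ℝ → ℂ := fun t => f.1 t.toNNReal

theorem ext_lip {a : ℂ} {v : ℝ} (hv : 0 ≤ v) (f : Traj a v) : Lip v (ext f) := fun s t =>
  (f.2.2 _ _).trans (mul_le_mul_of_nonneg_left (dist_toNNReal_le s t) hv)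

theorem ext_zero {a : ℂ} {v : ℝ} (f : Traj a v) : ext f 0 = a := by simpa [ext] using f.2.1

theorem ext_coe {a : ℂ} {v : ℝ} (f : Traj a v) (t : ℝ≥0) : ext f t = f.1 t := by simp [ext]

/-- restriction to nonnegative times -/
def toTraj {a : ℂ} {v : ℝ} (f : ℝ → ℂ) (h0 : f 0 = a) (hf : Lip v f) : Traj a v :=
  ⟨fun t => f t, h0, fun s t => hf s t⟩

theorem disp {r w T : ℝ} (hr : 0 < r) (hw : 0 ≤ w) (hT : 0 < T) {σ : ℝ → ℂ} (hσ : Lip 1 σ)
    (z : ℂ) (τ : ℝ) (hD : 2 * r + (1 + w) * T ≤ dist (σ τ) z) :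
    volume {p : ℂ | ‖p‖ < w * T ∧ ∃ t, τ ≤ t ∧ dist (σ t) (z + ((t - τ : ℝ) : ℂ) * (p / T)) ≤ r} ≤
      ENNReal.ofReal (Real.pi * (2 * r) ^ 2 + 2 * (2 * r) * (T * (1 + w) + 2 * r)) := by
  have hc : Continuous σ :=
    (LipschitzWith.of_dist_le_mul (K := 1) fun s t => by
      simpa [Real.dist_eq] using hσ s t).continuous
  have h := expand_tube (fun u => σ (τ + u) - z) (fun s t => by
    have := hσ (τ + s) (τ + t)
    rwa [add_sub_add_left_eq_sub, ← dist_sub_right _ _ z, one_mul] at this) (r := 2 * r)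
    (by linarith) hw hT
  refine le_trans (measure_mono ?_) h
  rintro p ⟨hp, t, ht, hd⟩
  refine ⟨hp.le, ?_⟩
  have e : ((t - τ : ℝ) : ℂ) * (p / T) = (((t - τ) / T : ℝ) : ℂ) * p := by
    push_cast
    ring
  have a1 := hσ.le ht
  have a2 : dist (z + ((t - τ : ℝ) : ℂ) * (p / T)) z ≤ w * (t - τ) := by
    rw [dist_self_add_left, e, norm_mul, Complex.norm_real, Real.norm_eq_abs,
      abs_of_nonneg (div_nonneg (by linarith) hT.le)]
    have : 0 ≤ (t - τ) / T := div_nonneg (by linarith) hT.le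
    calc _ ≤ (t - τ) / T * (w * T) := by gcongr
      _ = _ := by field_simp
  have a3 := dist_triangle4 (σ τ) (σ t) (z + ((t - τ : ℝ) : ℂ) * (p / T)) z
  have a4 : T ≤ t - τ := by
    by_contra k
    nlinarith [not_le.1 k]
  have ho : IsOpen {u : ℝ | dist (σ (τ + u) - z) (((u / T : ℝ) : ℂ) * p) < 2 * r} :=
    isOpen_lt (by fun_prop) continuous_const
  have hm : t - τ ∈ {u : ℝ | dist (σ (τ + u) - z) (((u / T : ℝ) : ℂ) * p) < 2 * r} := by
    change dist (σ (τ + (t - τ)) - z) _ < 2 * r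
    rw [add_sub_cancel, ← dist_add_left z, add_sub_cancel, ← e]
    linarith
  obtain ⟨a, b, hab, hsub⟩ := mem_nhds_iff_exists_Ioo_subset.1 (ho.mem_nhds hm)
  obtain ⟨u, hu1, hu2⟩ := exists_rat_btwn hab.2
  exact ⟨u, by linarith, hsub ⟨hab.1.trans hu1, hu2⟩⟩

open Classical in
/-- follow `h` until `τ`, then leave with a uniform random velocity -/
theorem leave {r w T e : ℝ} (hr : 0 < r) (hw : 0 < w) (hT : 0 < T)
    (he : Real.pi * (2 * r) ^ 2 + 2 * (2 * r) * (T * (1 + w) + 2 * r) ≤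
      e * (Real.pi * (w * T) ^ 2)) (h : Traj 0 w) {τ : ℝ} (hτ : 0 ≤ τ) :
    ∃ ν : Measure (Traj 0 w), IsProbabilityMeasure ν ∧ ∀ (A : ℂ) (σ : Traj A 1),
      ν {g | ∃ t, dist (σ.1 t) (g.1 t) ≤ r} ≤ ENNReal.ofReal ((if Cap r τ (ext σ) (ext h) ∨
        dist (ext σ τ) (ext h τ) ≤ 2 * r + (1 + w) * T then 1 else 0) + e) := by
  have hpi := Real.pi_pos
  have hv := vol_ball (ρ := w * T) (by positivity) 0
  have hP : IsProbabilityMeasure (ProbabilityTheory.cond (volume : Measure ℂ) (ball 0 (w * T))) :=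
    ProbabilityTheory.cond_isProbabilityMeasure_of_finite
      (by rw [hv]; exact (ENNReal.ofReal_pos.2 (by positivity)).ne')
      (by rw [hv]; exact ENNReal.ofReal_ne_top)
  let cl : ℂ → ℂ := fun p => if ‖p‖ < w * T then p / T else 0
  have c1 : ∀ p, ‖cl p‖ ≤ w := fun p => by
    simp only [cl]
    split_ifs with k
    · rw [norm_div, Complex.norm_real, Real.norm_eq_abs, abs_of_pos hT, div_le_iff₀ hT]
      exact k.le
    · simpa using hw.le
  have c2 : Measurable cl :=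
    Measurable.ite (measurableSet_lt measurable_norm measurable_const)
      (measurable_id.div_const _) measurable_const
  let H : ℂ → Traj 0 w := fun p => toTraj
    (fun t => if t ≤ τ then ext h t else ext h τ + ((t - τ : ℝ) : ℂ) * cl p)
    (by simp [hτ, ext_zero])
    ((ext_lip hw.le h).glue (lip_line (ext h τ) (cl p) τ (c1 p)) τ (by simp))
  have hH : Measurable H := by
    refine Measurable.subtype_mk (measurable_pi_lambda _ fun t : ℝ≥0 => ?_)
    by_cases k : (t : ℝ) ≤ τ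
    · simp only [k, if_true]
      exact measurable_const
    · simp only [k, if_false]
      exact measurable_const.add (measurable_const.mul c2)
  have he0 : 0 ≤ e := by
    by_contra k
    have : e * (Real.pi * (w * T) ^ 2) < 0 := mul_neg_of_neg_of_pos (not_le.1 k) (by positivity)
    have : 0 ≤ Real.pi * (2 * r) ^ 2 + 2 * (2 * r) * (T * (1 + w) + 2 * r) := by positivity
    linarith
  have hν := Measure.isProbabilityMeasure_map
    (μ := ProbabilityTheory.cond (volume : Measure ℂ) (ball 0 (w * T))) hH.aemeasurable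
  refine ⟨_, hν, fun A σ => ?_⟩
  split_ifs with k
  · exact prob_le_one.trans (ENNReal.one_le_ofReal.2 (by linarith))
  have hM : MeasurableSet {g : Traj 0 w | ∃ t, dist (σ.1 t) (g.1 t) ≤ r} :=
    measurable_prodMk_left (cap_meas A 1 0 w r)
  rw [not_or, not_le] at k
  rw [Measure.map_apply hH hM, ProbabilityTheory.cond_apply measurableSet_ball, hv, zero_add,
    ← ENNReal.div_eq_inv_mul,
    ENNReal.div_le_iff_le_mul (Or.inl (ENNReal.ofReal_pos.2 (by positivity)).ne')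
      (Or.inl ENNReal.ofReal_ne_top), ← ENNReal.ofReal_mul he0]
  refine le_trans (measure_mono ?_) ((disp hr hw.le hT (ext_lip zero_le_one σ) (ext h τ) τ
    k.2.le).trans (ENNReal.ofReal_le_ofReal he))
  rintro p ⟨hp, t, ht⟩
  rw [mem_ball_zero_iff] at hp
  rw [← ext_coe σ] at ht
  change dist (ext σ t) (if (t : ℝ) ≤ τ then _ else _) ≤ r at ht
  split_ifs at ht with k2
  · exact (k.1 ⟨t, t.2, k2, ht⟩).elim
  · simp only [cl, hp, if_true] at ht
    exact ⟨hp, t, (not_le.1 k2).le, ht⟩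

open Classical in
theorem mix_bound {r w ε : ℝ} (hr : 0 < r) (hw0 : 0 < w) (hw1 : w < 1) (hε : 0 < ε) :
    ∃ T : ℝ≥0, ∀ (A : ℂ) (c : ℝ) (ι : Type) [Fintype ι] (h : ι → Traj 0 w) (y : ι → ℝ),
      (∀ i, 0 ≤ y i) → ∑ i, y i = 1 →
      (∀ σ : Traj A 1, ∑ i, y i *
        (if σ ∈ {σ : Traj A 1 | ∃ t ≤ T, dist (σ.1 t) ((h i).1 t) ≤ r} then 1 else 0) ≤ c) →
      ∃ ν : ProbabilityMeasure (Traj 0 w), ∀ σ : Traj A 1,
        (ν : Measure (Traj 0 w)) {g | ∃ t, dist (σ.1 t) (g.1 t) ≤ r} ≤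
          ENNReal.ofReal (c + 2 * ε) := by
  have hpi := Real.pi_pos
  set N0 : ℝ := 4 * Real.pi * r ^ 2 + 8 * r + 8 * r ^ 2 with hN0
  have hN : 0 < N0 := by positivity
  set T0 : ℝ := 1 + N0 / (ε * (Real.pi * w ^ 2)) with hT0
  have hq : 0 < N0 / (ε * (Real.pi * w ^ 2)) := by positivity
  have hT1 : 1 ≤ T0 := by linarith
  have he : Real.pi * (2 * r) ^ 2 + 2 * (2 * r) * (T0 * (1 + w) + 2 * r) ≤
      ε * (Real.pi * (w * T0) ^ 2) := by
    have a1 : N0 ≤ T0 * (ε * (Real.pi * w ^ 2)) := by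
      rw [← div_le_iff₀ (by positivity)]
      linarith
    have a2 : Real.pi * (2 * r) ^ 2 + 2 * (2 * r) * (T0 * (1 + w) + 2 * r) ≤ N0 * T0 := by
      have b1 : 0 ≤ (Real.pi * r ^ 2) * (T0 - 1) := mul_nonneg (by positivity) (by linarith)
      have b2 : 0 ≤ r ^ 2 * (T0 - 1) := mul_nonneg (by positivity) (by linarith)
      have b3 : 0 ≤ r * T0 * (1 - w) := mul_nonneg (by positivity) (by linarith)
      rw [hN0]
      nlinarith
    calc _ ≤ N0 * T0 := a2
      _ ≤ T0 * (ε * (Real.pi * w ^ 2)) * T0 := by gcongr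
      _ = _ := by ring
  set D : ℝ := 2 * r + (1 + w) * T0 with hD
  have hD0 : 0 < D := by positivity
  have hw2 : 0 < 1 - w := by linarith
  set L : ℝ := D / (1 - w) with hL
  have hL0 : 0 < L := by positivity
  have hDL : D + w * L ≤ L := by
    have : L * (1 - w) = D := by rw [hL]; field_simp
    linarith
  set S : ℝ := (2 * L + 2 * D) / (1 - w) with hS
  have hS0 : 0 < S := by positivity
  have hS1 : 2 * L + 2 * D ≤ (1 - w) * S := by
    rw [hS]
    exact le_of_eq (by field_simp)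
  obtain ⟨Y0, y1, y2, y3⟩ := finite_cover_balls_of_compact (isCompact_closedBall (0 : ℂ) L) hr
  obtain ⟨q, hq1⟩ := exists_nat_one_div_lt hε
  obtain ⟨K, hK1⟩ := exists_nat_one_div_lt (half_pos hε)
  obtain ⟨m, hm1⟩ := exists_nat_ge
    (((q : ℝ) + 1) * ((K + 1 : ℕ) * y2.toFinset.card) / (ε * (ε / 2)))
  have hav := fun (σ : ℝ → ℂ) (hσ : Lip 1 σ) => detour_avg (r := r) (θ := ε / 2) (ε := ε) hL0 hDL
    hS0 hw1.le hS1 y2.toFinset
    (fun y hy => mem_closedBall_zero_iff.1 (y1 (y2.mem_toFinset.1 hy)))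
    (fun z hz => by
      obtain ⟨y, hy, hzy⟩ := mem_iUnion₂.1 (y3 (mem_closedBall_zero_iff.2 hz))
      exact ⟨y, y2.mem_toFinset.2 hy, (mem_ball'.1 hzy).le⟩)
    (m + 1) (K + 1) q m.succ_pos K.succ_pos (half_pos hε) hq1.le (by push_cast; linarith)
    (by
      rw [div_le_iff₀ (by positivity)] at hm1
      have : (0 : ℝ) ≤ ε * (ε / 2) := by positivity
      push_cast at hm1 ⊢
      nlinarith) hσ
  set M := m + 1 with hM
  set J := K + 1 with hJ
  have hM0 : (0 : ℝ) < M := by exact_mod_cast m.succ_pos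
  have hJ0 : (0 : ℝ) < J := by exact_mod_cast K.succ_pos
  refine ⟨((M : ℝ) * J * S).toNNReal, fun A c ι _ h y y0 ys hc => ?_⟩
  have hτ : ∀ k : Fin M × Fin J, 0 ≤ tau J S k.1 k.2 := fun k => by
    unfold tau
    positivity
  choose ν n1 n2 using fun k : ι × Fin M × Fin J => leave hr hw0 (by linarith) he (h k.1) (hτ k.2)
  have w0 : ∀ k : ι × Fin M × Fin J, 0 ≤ y k.1 / (M * J) := fun k =>
    div_nonneg (y0 _) (by positivity)
  have w1 : ∑ k : ι × Fin M × Fin J, y k.1 / (M * J) = 1 := by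
    rw [Fintype.sum_prod_type]
    simp only [Finset.sum_const, Finset.card_univ, Fintype.card_prod, Fintype.card_fin,
      nsmul_eq_mul]
    rw [← ys]
    refine Finset.sum_congr rfl fun i _ => ?_
    push_cast
    field_simp
  have hp : IsProbabilityMeasure
      (∑ k : ι × Fin M × Fin J, ENNReal.ofReal (y k.1 / (M * J)) • ν k) := ⟨by
    simp only [Measure.coe_finsetSum, Finset.sum_apply, Measure.smul_apply, measure_univ,
      smul_eq_mul, mul_one]
    rw [← ENNReal.ofReal_sum_of_nonneg fun k _ => w0 k, w1, ENNReal.ofReal_one]⟩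
  refine ⟨⟨_, hp⟩, fun σ => ?_⟩
  rw [ProbabilityMeasure.coe_mk]
  simp only [Measure.coe_finsetSum, Finset.sum_apply, Measure.smul_apply, smul_eq_mul]
  refine (Finset.sum_le_sum fun k _ => mul_le_mul_right (n2 k A σ) _).trans ?_
  simp only [← ENNReal.ofReal_mul (w0 _)]
  rw [← ENNReal.ofReal_sum_of_nonneg fun k _ => mul_nonneg (w0 k) (by
    split_ifs <;> linarith)]
  refine ENNReal.ofReal_le_ofReal ?_
  obtain ⟨σ', s1, s2⟩ := hav (ext σ) (ext_lip zero_le_one σ)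
  have hO : (0 : ℝ) < Fintype.card (Fin M → Fin (q + 1) × Fin J × y2.toFinset) := by
    obtain ⟨y, hy, -⟩ := mem_iUnion₂.1 (y3 (mem_closedBall_self hL0.le))
    have : Nonempty (Fin M → Fin (q + 1) × Fin J × y2.toFinset) :=
      ⟨fun _ => (0, 0, ⟨y, y2.mem_toFinset.2 hy⟩)⟩
    exact_mod_cast Fintype.card_pos
  have b1 : ∀ ω, ∑ i, y i * (if Cap r (M * J * S) (σ' ω) (ext (h i)) then 1 else 0) ≤ c :=
    fun ω => by
      refine le_trans (Finset.sum_le_sum fun i _ => mul_le_mul_of_nonneg_left ?_ (y0 i))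
        (hc (toTraj (σ' ω) ((s1 ω).2.trans (ext_zero σ)) (s1 ω).1))
      split_ifs with k1 k2 k2
      · exact le_rfl
      · obtain ⟨t, t0, t1, t2⟩ := k1
        refine (k2 ⟨t.toNNReal, Real.toNNReal_le_toNNReal t1, ?_⟩).elim
        change dist (σ' ω t.toNNReal) _ ≤ r
        rwa [Real.coe_toNNReal t t0]
      · exact zero_le_one
      · exact le_rfl
  have b2 : ∑ i, y i * (((Finset.univ.filter fun ω =>
      Cap r (M * J * S) (σ' ω) (ext (h i))).card : ℝ) /
        Fintype.card (Fin M → Fin (q + 1) × Fin J × y2.toFinset)) ≤ c := by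
    simp only [← mul_div_assoc, ← Finset.sum_div]
    rw [div_le_iff₀ hO]
    simp only [Finset.card_filter, Nat.cast_sum, Nat.cast_ite, Nat.cast_one, Nat.cast_zero,
      Finset.mul_sum]
    rw [Finset.sum_comm]
    refine (Finset.sum_le_sum fun ω _ => b1 ω).trans (le_of_eq ?_)
    simp [mul_comm]
  have b3 := Finset.sum_le_sum fun i (_ : i ∈ Finset.univ) =>
    mul_le_mul_of_nonneg_left (s2 (ext (h i)) (ext_lip hw0.le _)) (y0 i)
  simp only [mul_add, Finset.sum_add_distrib, ← Finset.sum_mul, w1, ys] at b3 ⊢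
  have b4 : ∑ k : ι × Fin M × Fin J, y k.1 / (M * J) *
      (if Cap r (tau J S k.2.1 k.2.2) (ext σ) (ext (h k.1)) ∨
        dist (ext σ (tau J S k.2.1 k.2.2)) (ext (h k.1) (tau J S k.2.1 k.2.2)) ≤ D
        then 1 else 0) = ∑ i, y i * (((Finset.univ.filter fun k : Fin M × Fin J =>
          Cap r (tau J S k.1 k.2) (ext σ) (ext (h i)) ∨
          dist (ext σ (tau J S k.1 k.2)) (ext (h i) (tau J S k.1 k.2)) ≤ D).card : ℝ) /
            (M * J)) := by
    rw [Fintype.sum_prod_type]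
    refine Finset.sum_congr rfl fun i _ => ?_
    simp only [Finset.card_filter, Nat.cast_sum, Nat.cast_ite, Nat.cast_one, Nat.cast_zero,
      ← Finset.mul_sum]
    ring
  rw [← hD, b4]
  linarith

theorem has_value {r w ε : ℝ} (hr : 0 < r) (hw0 : 0 < w) (hw1 : w < 1) (hε : 0 < ε) :
    ∃ T : ℝ≥0, ∀ A : ℂ, ∃ (μ : ProbabilityMeasure (Traj A 1)) (ν : ProbabilityMeasure (Traj 0 w)),
      ∀ (σ : Traj A 1) (h : Traj 0 w),
        (ν : Measure (Traj 0 w)) {g | ∃ t, dist (σ.1 t) (g.1 t) ≤ r} ≤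
            value r w A + ENNReal.ofReal ε ∧
          value r w A ≤ (μ : Measure (Traj A 1)) {s | ∃ t ≤ T, dist (s.1 t) (h.1 t) ≤ r} +
            ENNReal.ofReal ε := by
  classical
  obtain ⟨T, hT⟩ := mix_bound hr hw0 hw1 (show 0 < ε / 6 by positivity)
  refine ⟨T, fun A => ?_⟩
  have := traj_compact A 1
  have := traj_borel A 1
  have := traj_metr A 1
  have n1 : Nonempty (Traj A 1) := ⟨⟨fun _ => A, rfl, fun s t => by simp⟩⟩
  have n2 : Nonempty (Traj 0 w) := ⟨⟨fun _ => 0, rfl, fun s t => by simp; positivity⟩⟩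
  have n3 : Nonempty (ProbabilityMeasure (Traj A 1)) :=
    ⟨⟨Measure.dirac (Classical.arbitrary _), inferInstance⟩⟩
  set C : Traj 0 w → Set (Traj A 1) := fun h => {s | ∃ t ≤ T, dist (s.1 t) (h.1 t) ≤ r} with hC
  set V : ℝ≥0∞ := ⨆ μ : ProbabilityMeasure (Traj A 1), ⨅ h, (μ : Measure (Traj A 1)) (C h)
    with hV
  have v1 : V ≤ value r w A := iSup_mono fun μ => iInf_mono fun h =>
    measure_mono fun s ⟨t, _, ht⟩ => ⟨t, ht⟩
  have v2 : V ≠ ⊤ := ne_top_of_le_ne_top ENNReal.one_ne_top (v1.trans (value_le_one' r hw0.le A))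
  have v3 : ∀ δ : ℝ, 0 < δ → V < V + ENNReal.ofReal δ := fun δ hδ =>
    ENNReal.lt_add_right v2 (ENNReal.ofReal_pos.2 hδ).ne'
  have v4 : ∀ δ : ℝ, 0 ≤ δ → ENNReal.ofReal (V.toReal + δ) = V + ENNReal.ofReal δ := fun δ hδ => by
    rw [ENNReal.ofReal_add ENNReal.toReal_nonneg hδ, ENNReal.ofReal_toReal v2]
  obtain ⟨μ, hμ⟩ : ∃ μ : ProbabilityMeasure (Traj A 1),
      V ≤ (⨅ h, (μ : Measure (Traj A 1)) (C h)) + ENNReal.ofReal (ε / 2) := by
    have := v3 _ (half_pos hε)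
    conv at this => rhs; rw [hV, ENNReal.iSup_add]
    obtain ⟨μ, hμ⟩ := lt_iSup_iff.1 this
    exact ⟨μ, hμ.le⟩
  rcases closed_game C (fun h => (cap_closed A 1 0 w r T).preimage
    (f := fun s => (s, h)) (by fun_prop)) (V.toReal + ε / 6) with ⟨μ', h1⟩ | ⟨F, y, y0, y1, hy⟩
  · have k : ENNReal.ofReal (V.toReal + ε / 6) ≤ V := le_iSup_of_le μ' (le_iInf h1)
    rw [v4 _ (by positivity)] at k
    exact ((v3 _ (by positivity)).not_ge k).elim
  obtain ⟨ν, hν⟩ := hT A _ F (fun i => i.1) y y0 y1 hy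
  rw [show V.toReal + ε / 6 + 2 * (ε / 6) = V.toReal + ε / 2 by ring,
    v4 _ (by positivity)] at hν
  refine ⟨μ, ν, fun σ h => ⟨(hν σ).trans (add_le_add v1 (ENNReal.ofReal_le_ofReal
    (by linarith))), (value_le_mix r w A ν _ hν).trans ?_⟩⟩
  calc _ ≤ (μ : Measure (Traj A 1)) (C h) + ENNReal.ofReal (ε / 2) + ENNReal.ofReal (ε / 2) := by
        gcongr
        exact hμ.trans (add_le_add (iInf_le _ h) le_rfl)
    _ = _ := by
        rw [add_assoc, ← ENNReal.ofReal_add (by positivity) (by positivity), add_halves]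

end Pool.Agent.MP_66a317_pr.Value
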